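import Mathlib
import Pool.Agent.TH876.FH.Def

/-! Project FT (MP_c59389_nt), piece LH: `6 h(l) ≤ h(j) + c`. -/

set_option autoImplicit false

namespace Pool.Agent.E8helper65.FT

open Height NumberField

section

variable {K : Type} [Field K] [NumberField K]

lemma h_add (a b : K) : ∃ c : ℝ, ∀ x : K, logHeight₁ (a * x + b) ≤ logHeight₁ x + c := by
  refine ⟨logHeight₁ a + logHeight₁ b + totalWeight K * Real.log 2, fun x => ?_⟩
  have h1 := logHeight₁_add_le (a * x) b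
  have h2 := logHeight₁_mul_le a x
  linarith

/-- the quadratic forms -/
noncomputable def qq (a : Fin 2 × Fin 2) : MvPolynomial (Fin 2) K :=
  if a = (0, 0) then MvPolynomial.X 0 ^ 2
  else if a = (0, 1) then 0
  else if a = (1, 0) then -MvPolynomial.X 1 ^ 2
  else MvPolynomial.X 0 ^ 2 - MvPolynomial.X 0 * MvPolynomial.X 1 + MvPolynomial.X 1 ^ 2

lemma qq_hom (a : Fin 2 × Fin 2) : (qq (K := K) a).IsHomogeneous 2 := by
  have hX : ∀ i : Fin 2, (MvPolynomial.X i ^ 2 : MvPolynomial (Fin 2) K).IsHomogeneous 2 := by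
    intro i
    have := (MvPolynomial.isHomogeneous_X K i).pow 2
    simpa using this
  have hXX : (MvPolynomial.X 0 * MvPolynomial.X 1 : MvPolynomial (Fin 2) K).IsHomogeneous 2 :=
    (MvPolynomial.isHomogeneous_X K 0).mul (MvPolynomial.isHomogeneous_X K 1)
  unfold qq
  split_ifs
  · exact hX 0
  · exact MvPolynomial.isHomogeneous_zero _ _ _
  · exact (hX 1).neg
  · exact ((hX 0).sub hXX).add (hX 1)

/-- `3 h(p) ≤ h(p³ / (p + 1)) + c` -/
lemma h_cub : ∃ c : ℝ, ∀ p : K, p + 1 ≠ 0 →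
    3 * logHeight₁ p ≤ logHeight₁ (p ^ 3 / (p + 1)) + c := by
  obtain ⟨C, hC⟩ := logHeight_eval_ge' (K := K) (M := 2) (N := 3) (q := qq) qq_hom
  refine ⟨-C, fun p hp => ?_⟩
  have h1 := hC (fun j : Fin 2 => MvPolynomial.C (![p ^ 3, p + 1] j)) (x := ![p, 1]) (by
    intro k
    fin_cases k
    · simp [qq, Fin.sum_univ_two]
      ring
    · simp [qq, Fin.sum_univ_two]
      ring)
  have h2 : (fun j : Fin 2 => (MvPolynomial.C (![p ^ 3, p + 1] j) :
      MvPolynomial (Fin 2) K).eval ![p, 1]) = ![p ^ 3, p + 1] := by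
    funext j
    rw [MvPolynomial.eval_C]
  rw [h2, ← logHeight₁_eq_logHeight, ← logHeight₁_div_eq_logHeight] at h1
  push_cast at h1
  linarith

end

theorem t_LH : Pool.Agent.TH876.FH.LhS := by
  intro K _ _
  obtain ⟨c1, h1⟩ := h_add (K := K) (-4) 1
  obtain ⟨c2, h2⟩ := h_add (K := K) (-(1 / 2)) (1 / 2)
  obtain ⟨c3, h3⟩ := h_add (K := K) 1 1
  obtain ⟨c4, h4⟩ := h_add (K := K) (1 / 256) 0
  obtain ⟨c5, h5⟩ := h_cub (K := K)
  refine ⟨3 * (c1 + 2 * c2) + 3 * c3 + c5 + c4, fun j l hl0 hl1 hj => ?_⟩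
  have hs0 : l * (1 - l) ≠ 0 := mul_ne_zero hl0 (sub_ne_zero.2 (Ne.symm hl1))
  obtain ⟨s, hs⟩ : ∃ s : K, s = l * (1 - l) := ⟨_, rfl⟩
  rw [← hs] at hs0
  -- `2 h(l) ≤ h(s) + c`
  have k1 : 2 * logHeight₁ (1 - 2 * l) ≤ logHeight₁ s + c1 := by
    have e : (1 - 2 * l) ^ 2 = -4 * s + 1 := by rw [hs]; ring
    have h := h1 s
    rw [← e, logHeight₁_pow] at h
    push_cast at h
    exact h
  have k2 : logHeight₁ l ≤ logHeight₁ (1 - 2 * l) + c2 := by
    have e : l = -(1 / 2) * (1 - 2 * l) + 1 / 2 := by ring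
    have h := h2 (1 - 2 * l)
    rwa [← e] at h
  -- `p = 1 / s - 1`
  obtain ⟨p, hp⟩ : ∃ p : K, p = s⁻¹ - 1 := ⟨_, rfl⟩
  have hp1 : p + 1 = s⁻¹ := by rw [hp]; ring
  have k3 : logHeight₁ s ≤ logHeight₁ p + c3 := by
    have h := h3 p
    rw [one_mul, hp1, logHeight₁_inv] at h
    exact h
  have k5 := h5 p (by rw [hp1]; exact inv_ne_zero hs0)
  have ej : p ^ 3 / (p + 1) = 1 / 256 * j + 0 := by
    have e1 : j * s ^ 2 = 256 * (1 - s) ^ 3 := by
      rw [hs]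
      linear_combination hj
    have e2 : j = 256 * (1 - s) ^ 3 / s ^ 2 := by
      rw [eq_div_iff (pow_ne_zero 2 hs0)]
      exact e1
    rw [hp1, hp, e2]
    field_simp
    ring
  rw [ej] at k5
  have k4 := h4 j
  linarith

end Pool.Agent.E8helper65.FT
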